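import Pool.Agent.N671.DA.Tup
import Pool.Agent.Results.MP_79b4ff_gt.KnotoidTwist

/-!
# The bracket polynomial of knotoids whose twist vectors are best approximation vectors

Let `arcs` be a template of a knotoid diagram with `k` boxes, not all nugatory, and `K(n)`, `n ∈ ℤ^k`, the diagram with
`|n e|` crossings in the box `e`. Let `α` be a real matrix with `k` rows and `h` columns, `β` in `ℝ^h` and `τ > 0`. We
consider the integer vectors `n` such that `‖(n α)_j - β_j‖ ≤ c |n| ^ (-τ)` for `j = 1, …, h`, `‖x‖` the distance to the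
nearest integer and `|n|` the maximum norm; for `β = 0`, `c = 1` and `τ = k / h` they include all best approximation vectors
of the system of linear forms `n α`, by the theorem of Minkowski. We show that for all `α` outside a set of Hausdorff
dimension at most `(k - 1) h + (h + k - 1) / (1 + τ)`, which is less than `k h` for `τ > (k - 1) / h`, and so for almost all
`α`, the span of the normalised bracket polynomial of `K(n)` tends to infinity along this sequence of vectors `n`. In
particular `f = 1` only for finitely many of them.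

The best approximation vectors are a very sparse sequence, about `log N` vectors of norm at most `N`, and so this does not
follow from the size `O(N^(k - 1))` of the set of the exceptional `n`.

Proof. The starting theorem `KnotoidTwist` of this problem bounds the number of the exceptional `n`. The matrices `α` with
`‖(n α)_j - β_j‖ ≤ c |n| ^ (-τ)` form neighbourhoods of parallel affine subspaces, covered by cubes of side `|n| ^ (-1 - τ)`
(`Pool.Agent.N671.DA`).

Definitions: see `KnotoidTwist`.
-/

set_option autoImplicit false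

namespace Pool.Agent.Results.MP_79b4ff_gt.BestApproximations

open Pool.Agent.H891R2.Jones Pool.Agent.H891R2.MT Pool.Agent.H832R3.TW
open Pool.Agent.N671.DA (Near Thin thin_of_nat approx_vectors)

/-- **The span of the bracket polynomial tends to infinity along the best approximation vectors.** Let `arcs` be a template
with `k ≥ 1` boxes, not all nugatory, `β ∈ ℝ^h` and `τ > 0`. For all real matrices `α` with `k` rows and `h` columns outside a
set of Hausdorff dimension at most `(k - 1) h + (h + k - 1) / (1 + τ)`, for all `c` and `s`, for all large integer vectors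
`n` with `‖(n α)_j - β_j‖ ≤ c |n| ^ (-τ)` for all `j`, the normalised bracket polynomial of every knotoid diagram on the twisted
arcs of `n` is not supported in an interval of length `4 s`. -/
theorem result (k : ℕ) (hk : 1 ≤ k) (arcs : List (Corner k × Corner k)) (hN : ¬ Nugatory arcs) (h : ℕ) (β : Fin h → ℝ)
    (τ : ℝ) (hτ : 0 < τ) :
    ∃ E : Set (Fin k × Fin h → ℝ),
      dimH E ≤ ENNReal.ofReal (((k : ℝ) - 1) * h + (h + ((k : ℝ) - 1)) / (1 + τ)) ∧
      ∀ α, α ∉ E → ∀ (c : ℝ) (s : ℕ), ∃ Q : ℝ, ∀ n : Fin k → ℤ, Q ≤ ‖n‖ → Near α β n (c * ‖n‖ ^ (-τ)) →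
        ∀ D : Diagram (Ribbon.Pt n), Orients D (twisted arcs n) → IsKnotoid D → ¬ FSpanLE s D := by
  have hk1 : (1 : ℝ) ≤ k := by exact_mod_cast hk
  have hT : ∀ s : ℕ, Thin {n : Fin k → ℤ | ∃ D : Diagram (Ribbon.Pt n), Orients D (twisted arcs n) ∧ IsKnotoid D ∧
      FSpanLE s D} ((k : ℝ) - 1) := by
    intro s
    refine thin_of_nat (C₀ := 3 ^ k * (8 * k + 2 * s + 3) * 3 ^ (k - 1)) (by linarith) fun N hN1 => ?_
    have h1 := (KnotoidTwist.result k arcs hN s).2 N
    have h2 : ((({q : Fin k → ℤ | (∀ i, |q i| ≤ (N : ℤ)) ∧ q ∈ {n : Fin k → ℤ | ∃ D : Diagram (Ribbon.Pt n),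
        Orients D (twisted arcs n) ∧ IsKnotoid D ∧ FSpanLE s D}}.ncard : ℕ) : ℝ)) ≤
        3 ^ k * (8 * k + 2 * s + 3) * (2 * (N : ℝ) + 1) ^ (k - 1) := by exact_mod_cast h1
    refine h2.trans ?_
    have hN2 : (1 : ℝ) ≤ N := by exact_mod_cast hN1
    calc (3 : ℝ) ^ k * (8 * k + 2 * s + 3) * (2 * (N : ℝ) + 1) ^ (k - 1)
        ≤ 3 ^ k * (8 * k + 2 * s + 3) * (3 * (N : ℝ)) ^ (k - 1) := by
          gcongr
          linarith
      _ = 3 ^ k * (8 * k + 2 * s + 3) * 3 ^ (k - 1) * (N : ℝ) ^ ((k : ℝ) - 1) := by
          rw [mul_pow, ← Real.rpow_natCast (N : ℝ) (k - 1), Nat.cast_sub hk, Nat.cast_one]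
          ring
  choose E hE hE2 using fun s : ℕ => approx_vectors hk _ (by linarith) (hT s) β hτ
  refine ⟨⋃ s, E s, ?_, fun α hα c s => ?_⟩
  · rw [dimH_iUnion]
    exact iSup_le hE
  · obtain ⟨Q, hQ⟩ := hE2 s α (fun h1 => hα (Set.mem_iUnion.2 ⟨s, h1⟩)) c
    exact ⟨Q, fun n hn h1 D hD hK hF => hQ n hn h1 ⟨D, hD, hK, hF⟩⟩

end Pool.Agent.Results.MP_79b4ff_gt.BestApproximations
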