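import Pool.Agent.H297.FT.Knotoid
import Pool.Agent.N569.FB.Fin

/-!
# Knotoids with trivial normalised bracket in families with several full twists: explicit bounds

`Pool.Agent.H891R2.Jones.Diagram` (starting library) contains the definitions `Diagram P` (oriented
diagrams, planar or not; `Diagram.loops`, the number of components of a state, counts circles and
intervals), `Diagram.fPoly` (the normalised bracket `(-A^{-3})^{w(D)} ⟨D⟩`) and `Outer m` (the part
of an oriented diagram outside a box through which `m` strands run).  `IsKnotoid D` (starting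
library `Pool.Agent.H832R3.TW.E`): the pieces of `D` form one oriented interval, running from a
marked point `tail` to a different marked point `head`, and (possibly) oriented closed curves.
`Pool.Agent.H297.FT.Defs` (starting library) adds: `Boxes m k` (`k` boxes, the box `e` on the
consecutive strands `off e, …, off e + size e - 1`; they may overlap), `family O B a` for `a ∈ ℤ^k`
(the diagram with `a e` full twists on the `size e` strands of the box `e`, one box above the other),
`lk` (the number of the strands of a box directed upwards minus the number of those directed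
downwards), the linear forms `wt` on `ℤ^k`, `w_s(a) = ∑ e, (s_e (s_e + 2) - 3 ℓ_e²) a_e` for
`s_e ∈ {n_e, n_e - 2, …} , s_e ≥ 0`, and `w_∞ = 0`, and the subgroup
`Lam E = {a | w_s(a) = w_t(a) for all (s, t) ∈ E}` of `ℤ^k`.

It is known (starting result `FullTwistKnotoidCosets`) that the exceptional set
`{a | f_{K(a)} = 1}` is a finite union of cosets of subgroups `Lam E`. Here this is made effective.
-/

set_option autoImplicit false

namespace Pool.Agent.Results.MP_79b4ff_gt.FullTwistBounds

open Pool.Agent.H891R2.Jones Pool.Agent.H297.FT Pool.Agent.H832R3.TW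

/-- The bound `K(m, k, N) = k! (3m²)^(k-1) (2 R + k! (3m²)^k)`, where
`R = 8 N + 2 m + 3 k m³ (1 + (⌊m/2⌋ + 1)^k)`. -/
def bound (m k N : ℕ) : ℕ :=
  k.factorial * (3 * m ^ 2) ^ (k - 1) *
    (2 * (8 * N + 2 * m + 3 * k * m ^ 3 * (1 + (m / 2 + 1) ^ k)) + k.factorial * (3 * m ^ 2) ^ k)

/-- Let `K(a)`, `a ∈ ℤ^k`, be the diagrams obtained from a diagram of a knotoid with at most `N`
crossings outside by putting `a_e` full twists into `k` boxes, the box `e` on `n_e` strands with
linking number `ℓ_e`.  Then all of them are diagrams of knotoids, and: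

* the set of all `a` with `f_{K(a)} = 1` is a finite union of cosets of subgroups of the form
  `Λ(E) = {a | w_s(a) = w_t(a) for all (s, t) ∈ E}`, each of them containing an element all of whose
  coordinates are at most `bound m k N` in absolute value;
* if `f_{K(a)} = 1` then there is `b`, all of whose coordinates are at most `bound m k N` in absolute
  value, with `f_{K(b + t (a - b))} = 1` for all integers `t`, in particular `f_{K(b)} = 1`;
* if `f_{K(a)} = 1` for only finitely many `a` then all of them have coordinates at most
  `bound m k N` in absolute value. -/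
theorem result {m k : ℕ} (hm : 0 < m) (N : ℕ) (O : Outer m) (hO : IsKnotoid O.close)
    (hN : O.crossings.length ≤ N) (B : Boxes m k) :
    (∀ a : Fin k → ℤ, IsKnotoid (family O B a)) ∧
    (∃ F : Finset ((Fin k → ℤ) × Finset (Option (Ind B) × Option (Ind B))),
      (∀ p ∈ F, ∀ e, |p.1 e| ≤ bound m k N) ∧
      {a | (family O B a).fPoly = 1} = ⋃ p ∈ F, {a | a - p.1 ∈ Lam O B p.2}) ∧
    (∀ a : Fin k → ℤ, (family O B a).fPoly = 1 → ∃ b : Fin k → ℤ, (∀ e, |b e| ≤ bound m k N) ∧
      ∀ t : ℤ, (family O B (b + t • (a - b))).fPoly = 1) ∧
    ({a : Fin k → ℤ | (family O B a).fPoly = 1}.Finite →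
      ∀ a : Fin k → ℤ, (family O B a).fPoly = 1 → ∀ e, |a e| ≤ bound m k N) :=
  ⟨family_knotoid O hO B, Pool.Agent.N569.FB.cosets hm N O hN B,
    Pool.Agent.N569.FB.bounded_mem hm N O hN B, Pool.Agent.N569.FB.bounded_of_finite hm N O hN B⟩

end Pool.Agent.Results.MP_79b4ff_gt.FullTwistBounds
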