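import Pool.Agent.N569.VT.Contact
import Pool.Agent.Y463.KN.Basic


/-!
# Normalised brackets of all knotoid diagrams with boundedly many crossings outside a box

Diagrams (starting library `Pool.Agent.H891R2.Jones.Diagram`): `Diagram P` (oriented diagrams with marked points `P`,
planar or not; `Diagram.loops σ`, the number of the components of the state `σ`, counts circles and intervals, `σ i =
true`: smoothing of type `A`), `Diagram.fPoly` (the normalised bracket `(-A^{-3})^{w(D)} ⟨D⟩`, a Laurent polynomial in
`A = T 1`), `Outer m` (the part of an oriented diagram outside a box through which `m` strands run, with arbitrary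
directions `up`), `Outer.close` (vertical strands in the box).  `IsKnotoid D` (starting library
`Pool.Agent.H832R3.TW.E`): the pieces of `D` form one oriented interval, running from a marked point `tail` to a
different marked point `head`, and (possibly) oriented closed curves.  Several boxes are the case of one box: take the
boxes side by side.  `Pool.Agent.W639.RB.Defs`: `Letter m` (the letters `σ_i^{±1}`).  `Pool.Agent.Y463.SK.Defs`, for words `w` (lists of letters): `permW w` (the permutation of the
strands), `dia O w` (the diagram obtained by drawing `w` in the box of `O` and filling the rest of the box with vertical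
strands), `multiW w v n = w_1^{n_1} v_1 ⋯ w_r^{n_r} v_r`.

Proof: see `MP_7bc610_gt.VirtualBoundedOutside`; the brackets count circles and the interval, so that the endpoints of
the knotoid may be anywhere outside the box.
-/

set_option autoImplicit false

namespace Pool.Agent.Results.MP_79b4ff_gt.KnotoidBoundedOutside

open Finset LaurentPolynomial Pool.Agent.H891R2.Jones Pool.Agent.W639.RB Pool.Agent.N569.VT Pool.Agent.Y463.SK
  Pool.Agent.Y463.KN
open Pool.Agent.H832R3.TW (IsKnotoid)

/-- Let `F` be a Laurent polynomial with `F(1) ≠ 0`, for example `F = 1`.  For all numbers `m ≥ 1`, `N`, `r`, `ℓ` there is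
a number `M` with the following property.  Let `O` be the part of any diagram of a knotoid (or multi-knotoid, of any
height) outside a box through which `m` strands run in arbitrary directions, with at most `N` crossings, let
`w_1, …, w_r`, `v_1, …, v_r` be arbitrary braid words on `m` strands with at most `ℓ` letters, `n ∈ ℤ^r`, and let `D` be
the diagram with the braid `w_1^{n_1} v_1 ⋯ w_r^{n_r} v_r` in the box (a diagram of a knotoid or multi-knotoid if the
braid preserves the directions).  If the normalised bracket of `D` agrees with `F` up to terms of order `M` at `A = 1`,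
then it is equal to `F`.

So finitely many Taylor coefficients (of a number which depends on `m`, `N`, `r`, `ℓ` only) decide for all these
knotoids whether `f = 1`; the numbers of crossings are not bounded. -/
theorem result (m N r ℓ : ℕ) (hm : 1 ≤ m) (F : ℤ[T;T⁻¹]) (hF : (F.coeff.sum fun _ c => c) ≠ 0) : ∃ M : ℕ,
    ∀ O : Outer m, IsKnotoid O.close → O.crossings.length ≤ N →
    ∀ w v : Fin r → List (Letter m), (∀ i, (w i).length ≤ ℓ) → (∀ i, (v i).length ≤ ℓ) → ∀ n : Fin r → ℤ,
      ((∀ j, O.up (permW (multiW w v n) j) = O.up j) → IsKnotoid (dia O (multiW w v n))) ∧
      ((T 1 - 1 : ℤ[T;T⁻¹]) ^ M ∣ (dia O (multiW w v n)).fPoly - F → (dia O (multiW w v n)).fPoly = F) := by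
  obtain ⟨d₁, h₁⟩ := uni_contact hm N r ℓ F hF
  exact ⟨d₁, fun O hO hN w v hw hv n => ⟨knotoid_dia O hO _, h₁ O hN w v hw hv n⟩⟩

end Pool.Agent.Results.MP_79b4ff_gt.KnotoidBoundedOutside
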